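import Mathlib

/-!
# Two-colouring hypergraphs with the Hall condition with surplus one

If every nonempty subfamily of a finite family of finite sets has a union with more elements than
the subfamily has members, then the ground set has a colouring with two colours for which no
member is monochromatic.
-/

set_option autoImplicit false
set_option linter.unusedSectionVars false

namespace Pool.Agent.K3h69.FTD

open Finset

variable {V E : Type*} [Fintype V] [DecidableEq V]

/-- A nonzero kernel vector supported on the union of the sets. -/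
theorem exists_kernel (N : E → Finset V) (F : Finset E)
    (h : F.card < (F.biUnion N).card) :
    ∃ x : V → ℚ, (∀ e ∈ F, ∑ v ∈ N e, x v = 0) ∧ ∃ e ∈ F, ∃ v ∈ N e, x v ≠ 0 := by
  classical
  let V1 : Finset V := F.biUnion N
  let ext : (V1 → ℚ) → V → ℚ := fun x v => if hv : v ∈ V1 then x ⟨v, hv⟩ else 0
  let L : (V1 → ℚ) →ₗ[ℚ] (F → ℚ) :=
    { toFun := fun x e => ∑ v ∈ N e.1, ext x v
      map_add' := by
        intro x y
        funext e
        simp only [ext, Pi.add_apply]
        rw [← Finset.sum_add_distrib]
        refine Finset.sum_congr rfl fun v _ => ?_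
        split_ifs <;> simp
      map_smul' := by
        intro c x
        funext e
        simp only [ext, Pi.smul_apply, smul_eq_mul, RingHom.id_apply]
        rw [Finset.mul_sum]
        refine Finset.sum_congr rfl fun v _ => ?_
        split_ifs <;> simp }
  have hk : LinearMap.ker L ≠ ⊥ := by
    apply LinearMap.ker_ne_bot_of_finrank_lt
    simpa using h
  obtain ⟨x, hx, hx0⟩ := (Submodule.ne_bot_iff _).1 hk
  have hx' : L x = 0 := hx
  refine ⟨ext x, fun e he => ?_, ?_⟩
  · have := congrFun hx' ⟨e, he⟩
    simpa [L] using this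
  · have : ∃ v : V1, x v ≠ 0 := by
      by_contra hcon
      push Not at hcon
      exact hx0 (funext hcon)
    obtain ⟨⟨v, hv⟩, hxv⟩ := this
    obtain ⟨e, he, hve⟩ := Finset.mem_biUnion.1 hv
    refine ⟨e, he, v, hve, ?_⟩
    simp only [ext]
    rw [dif_pos hv]
    exact hxv

theorem two_color (N : E → Finset V) (F : Finset E)
    (h : ∀ F' ⊆ F, F'.Nonempty → F'.card < (F'.biUnion N).card) :
    ∃ c : V → Bool, ∀ e ∈ F, (∃ v ∈ N e, c v = true) ∧ (∃ v ∈ N e, c v = false) := by
  classical
  induction F using Finset.strongInduction with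
  | H F ih =>
    rcases F.eq_empty_or_nonempty with rfl | hne
    · exact ⟨fun _ => true, by simp⟩
    obtain ⟨x, hx, e1, he1, v1, hv1, hxv1⟩ := exists_kernel N F (h F (Finset.Subset.refl _) hne)
    let F0 := F.filter (fun e => ∀ v ∈ N e, x v = 0)
    have hF0 : F0 ⊂ F := by
      refine Finset.filter_ssubset.2 ⟨e1, he1, fun hcon => hxv1 (hcon v1 hv1)⟩
    obtain ⟨c0, hc0⟩ := ih F0 hF0 (fun F' hF' hne' => h F' (hF'.trans hF0.subset) hne')
    refine ⟨fun v => if 0 < x v then true else if x v < 0 then false else c0 v, ?_⟩
    intro e he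
    by_cases hz : ∀ v ∈ N e, x v = 0
    · obtain ⟨⟨a, ha, hca⟩, ⟨b, hb, hcb⟩⟩ := hc0 e (Finset.mem_filter.2 ⟨he, hz⟩)
      refine ⟨⟨a, ha, ?_⟩, ⟨b, hb, ?_⟩⟩
      · simp [hz a ha, hca]
      · simp [hz b hb, hcb]
    · have hs := hx e he
      constructor
      · by_contra hcon
        push Not at hcon
        apply hz
        have hle : ∀ v ∈ N e, x v ≤ 0 := by
          intro v hv
          by_contra hlt
          push Not at hlt
          exact hcon v hv (by simp [hlt])
        intro v hv
        exact (Finset.sum_eq_zero_iff_of_nonpos hle).1 hs v hv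
      · by_contra hcon
        push Not at hcon
        apply hz
        have hle : ∀ v ∈ N e, 0 ≤ x v := by
          intro v hv
          by_contra hlt
          push Not at hlt
          exact hcon v hv (by simp [hlt, not_lt.2 hlt.le])
        intro v hv
        exact (Finset.sum_eq_zero_iff_of_nonneg hle).1 hs v hv

end Pool.Agent.K3h69.FTD
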