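import Mathlib

/-!
# Edge cuts of cubic bipartite graphs

`r : V → E → Prop` is the adjacency of a bipartite graph with the parts `V` and `E`. For a set `S` of
vertices of both kinds `cut r S` is the number of edges between `S` and its complement,
`cutV r S` the number of those which leave `S` from `V`, and `cutE r S` the number of those
which leave `S` from `E`.
-/

set_option autoImplicit false
set_option linter.unusedSectionVars false

namespace Pool.Agent.K3h69.FTD

open Finset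

variable {V E : Type} [Fintype V] [DecidableEq V] [Fintype E] [DecidableEq E]
variable (r : V → E → Prop) [DecidableRel r]

/-- number of edges between `S` and its complement -/
def cut (S : Finset (V ⊕ E)) : ℕ :=
  ∑ v : V, ∑ e : E, if r v e ∧ ¬ (Sum.inl v ∈ S ↔ Sum.inr e ∈ S) then 1 else 0

/-- number of edges from `S ∩ V` to the complement of `S` -/
def cutV (S : Finset (V ⊕ E)) : ℕ :=
  ∑ v : V, ∑ e : E, if r v e ∧ Sum.inl v ∈ S ∧ Sum.inr e ∉ S then 1 else 0

/-- number of edges from `S ∩ E` to the complement of `S` -/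
def cutE (S : Finset (V ⊕ E)) : ℕ :=
  ∑ v : V, ∑ e : E, if r v e ∧ Sum.inl v ∉ S ∧ Sum.inr e ∈ S then 1 else 0

/-- number of edges inside `S` -/
def ins (S : Finset (V ⊕ E)) : ℕ :=
  ∑ v : V, ∑ e : E, if r v e ∧ Sum.inl v ∈ S ∧ Sum.inr e ∈ S then 1 else 0

/-- number of elements of `V` in `S` -/
def nV (S : Finset (V ⊕ E)) : ℕ := (univ.filter (fun v : V => (Sum.inl v : V ⊕ E) ∈ S)).card

/-- number of elements of `E` in `S` -/
def nE (S : Finset (V ⊕ E)) : ℕ := (univ.filter (fun e : E => (Sum.inr e : V ⊕ E) ∈ S)).card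

theorem cut_eq (S : Finset (V ⊕ E)) : cut r S = cutV r S + cutE r S := by
  unfold cut cutV cutE
  rw [← Finset.sum_add_distrib]
  refine Finset.sum_congr rfl fun v _ => ?_
  rw [← Finset.sum_add_distrib]
  refine Finset.sum_congr rfl fun e _ => ?_
  by_cases h1 : r v e <;> by_cases h2 : (Sum.inl v : V ⊕ E) ∈ S <;>
    by_cases h3 : (Sum.inr e : V ⊕ E) ∈ S <;> simp [h1, h2, h3]

/-- The bipartite graph is cubic. -/
structure Cubic : Prop where
  left : ∀ v, (univ.filter (fun e => r v e)).card = 3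
  right : ∀ e, (univ.filter (fun v => r v e)).card = 3

variable {r}

theorem three_nV (h : Cubic r) (S : Finset (V ⊕ E)) : 3 * nV S = cutV r S + ins r S := by
  unfold nV cutV ins
  rw [← Finset.sum_add_distrib, Finset.card_filter, Finset.mul_sum]
  refine Finset.sum_congr rfl fun v _ => ?_
  rw [← Finset.sum_add_distrib]
  by_cases h2 : (Sum.inl v : V ⊕ E) ∈ S
  · have := h.left v
    rw [Finset.card_filter] at this
    simp only [h2, if_true, mul_one]
    rw [← this]
    refine Finset.sum_congr rfl fun e _ => ?_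
    by_cases h1 : r v e <;> by_cases h3 : (Sum.inr e : V ⊕ E) ∈ S <;> simp [h1, h3]
  · simp [h2]

theorem three_nE (h : Cubic r) (S : Finset (V ⊕ E)) : 3 * nE S = cutE r S + ins r S := by
  unfold nE cutE ins
  rw [Finset.sum_comm (s := (univ : Finset V)), Finset.sum_comm (s := (univ : Finset V))]
  rw [← Finset.sum_add_distrib, Finset.card_filter, Finset.mul_sum]
  refine Finset.sum_congr rfl fun e _ => ?_
  rw [← Finset.sum_add_distrib]
  by_cases h2 : (Sum.inr e : V ⊕ E) ∈ S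
  · have := h.right e
    rw [Finset.card_filter] at this
    simp only [h2, if_true, mul_one]
    rw [← this]
    refine Finset.sum_congr rfl fun v _ => ?_
    by_cases h1 : r v e <;> by_cases h3 : (Sum.inl v : V ⊕ E) ∈ S <;> simp [h1, h3]
  · simp [h2]

variable (r)

theorem ins_le (S : Finset (V ⊕ E)) : ins r S ≤ nV S * nE S := by
  unfold ins nV nE
  rw [Finset.card_filter, Finset.card_filter, Finset.sum_mul_sum]
  refine Finset.sum_le_sum fun v _ => Finset.sum_le_sum fun e _ => ?_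
  by_cases h1 : r v e <;> by_cases h2 : (Sum.inl v : V ⊕ E) ∈ S <;>
    by_cases h3 : (Sum.inr e : V ⊕ E) ∈ S <;> simp [h1, h2, h3]

theorem submod (S T : Finset (V ⊕ E)) : cut r (S ∩ T) + cut r (S ∪ T) ≤ cut r S + cut r T := by
  unfold cut
  rw [← Finset.sum_add_distrib, ← Finset.sum_add_distrib]
  refine Finset.sum_le_sum fun v _ => ?_
  rw [← Finset.sum_add_distrib, ← Finset.sum_add_distrib]
  refine Finset.sum_le_sum fun e _ => ?_
  simp only [Finset.mem_inter, Finset.mem_union]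
  by_cases h1 : r v e <;> by_cases h2 : (Sum.inl v : V ⊕ E) ∈ S <;>
    by_cases h3 : (Sum.inr e : V ⊕ E) ∈ S <;> by_cases h4 : (Sum.inl v : V ⊕ E) ∈ T <;>
    by_cases h5 : (Sum.inr e : V ⊕ E) ∈ T <;> simp [h1, h2, h3, h4, h5]

theorem posimod (S T : Finset (V ⊕ E)) : cut r (S \ T) + cut r (T \ S) ≤ cut r S + cut r T := by
  unfold cut
  rw [← Finset.sum_add_distrib, ← Finset.sum_add_distrib]
  refine Finset.sum_le_sum fun v _ => ?_
  rw [← Finset.sum_add_distrib, ← Finset.sum_add_distrib]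
  refine Finset.sum_le_sum fun e _ => ?_
  simp only [Finset.mem_sdiff]
  by_cases h1 : r v e <;> by_cases h2 : (Sum.inl v : V ⊕ E) ∈ S <;>
    by_cases h3 : (Sum.inr e : V ⊕ E) ∈ S <;> by_cases h4 : (Sum.inl v : V ⊕ E) ∈ T <;>
    by_cases h5 : (Sum.inr e : V ⊕ E) ∈ T <;> simp [h1, h2, h3, h4, h5]

theorem cutV_compl (S : Finset (V ⊕ E)) : cutV r Sᶜ = cutE r S := by
  unfold cutV cutE
  refine Finset.sum_congr rfl fun v _ => Finset.sum_congr rfl fun e _ => ?_
  simp [Finset.mem_compl]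

theorem cutE_compl (S : Finset (V ⊕ E)) : cutE r Sᶜ = cutV r S := by
  unfold cutV cutE
  refine Finset.sum_congr rfl fun v _ => Finset.sum_congr rfl fun e _ => ?_
  simp [Finset.mem_compl]

theorem cut_compl (S : Finset (V ⊕ E)) : cut r Sᶜ = cut r S := by
  rw [cut_eq, cut_eq, cutV_compl, cutE_compl, add_comm]

theorem nV_split (S T : Finset (V ⊕ E)) : nV (S ∩ T) + nV (S \ T) = nV S := by
  unfold nV
  rw [Finset.card_filter, Finset.card_filter, Finset.card_filter, ← Finset.sum_add_distrib]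
  refine Finset.sum_congr rfl fun v _ => ?_
  by_cases h2 : (Sum.inl v : V ⊕ E) ∈ S <;> by_cases h3 : (Sum.inl v : V ⊕ E) ∈ T <;>
    simp [h2, h3]

theorem nE_split (S T : Finset (V ⊕ E)) : nE (S ∩ T) + nE (S \ T) = nE S := by
  unfold nE
  rw [Finset.card_filter, Finset.card_filter, Finset.card_filter, ← Finset.sum_add_distrib]
  refine Finset.sum_congr rfl fun v _ => ?_
  by_cases h2 : (Sum.inr v : V ⊕ E) ∈ S <;> by_cases h3 : (Sum.inr v : V ⊕ E) ∈ T <;>
    simp [h2, h3]

theorem nV_union (S T : Finset (V ⊕ E)) : nV (S ∪ T) = nV T + nV (S \ T) := by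
  unfold nV
  rw [Finset.card_filter, Finset.card_filter, Finset.card_filter, ← Finset.sum_add_distrib]
  refine Finset.sum_congr rfl fun v _ => ?_
  by_cases h2 : (Sum.inl v : V ⊕ E) ∈ S <;> by_cases h3 : (Sum.inl v : V ⊕ E) ∈ T <;>
    simp [h2, h3]

theorem nE_union (S T : Finset (V ⊕ E)) : nE (S ∪ T) = nE T + nE (S \ T) := by
  unfold nE
  rw [Finset.card_filter, Finset.card_filter, Finset.card_filter, ← Finset.sum_add_distrib]
  refine Finset.sum_congr rfl fun v _ => ?_
  by_cases h2 : (Sum.inr v : V ⊕ E) ∈ S <;> by_cases h3 : (Sum.inr v : V ⊕ E) ∈ T <;>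
    simp [h2, h3]

theorem cutV_pos_of {S : Finset (V ⊕ E)} {v : V} {e : E} (h : r v e) (h1 : Sum.inl v ∈ S)
    (h2 : Sum.inr e ∉ S) : 1 ≤ cutV r S := by
  unfold cutV
  calc 1 = if r v e ∧ Sum.inl v ∈ S ∧ Sum.inr e ∉ S then 1 else 0 := by simp [h, h1, h2]
    _ ≤ ∑ e : E, if r v e ∧ Sum.inl v ∈ S ∧ Sum.inr e ∉ S then 1 else 0 :=
        Finset.single_le_sum (f := fun e => if r v e ∧ Sum.inl v ∈ S ∧ Sum.inr e ∉ S then 1 else 0)
          (fun _ _ => Nat.zero_le _) (Finset.mem_univ e)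
    _ ≤ _ := Finset.single_le_sum
          (f := fun v => ∑ e : E, if r v e ∧ Sum.inl v ∈ S ∧ Sum.inr e ∉ S then 1 else 0)
          (fun _ _ => Nat.zero_le _) (Finset.mem_univ v)

theorem cutE_pos_of {S : Finset (V ⊕ E)} {v : V} {e : E} (h : r v e) (h1 : Sum.inl v ∉ S)
    (h2 : Sum.inr e ∈ S) : 1 ≤ cutE r S := by
  unfold cutE
  calc 1 = if r v e ∧ Sum.inl v ∉ S ∧ Sum.inr e ∈ S then 1 else 0 := by simp [h, h1, h2]
    _ ≤ ∑ e : E, if r v e ∧ Sum.inl v ∉ S ∧ Sum.inr e ∈ S then 1 else 0 :=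
        Finset.single_le_sum (f := fun e => if r v e ∧ Sum.inl v ∉ S ∧ Sum.inr e ∈ S then 1 else 0)
          (fun _ _ => Nat.zero_le _) (Finset.mem_univ e)
    _ ≤ _ := Finset.single_le_sum
          (f := fun v => ∑ e : E, if r v e ∧ Sum.inl v ∉ S ∧ Sum.inr e ∈ S then 1 else 0)
          (fun _ _ => Nat.zero_le _) (Finset.mem_univ v)

theorem exists_of_cutE_pos {S : Finset (V ⊕ E)} (h : 1 ≤ cutE r S) :
    ∃ v e, r v e ∧ Sum.inl v ∉ S ∧ Sum.inr e ∈ S := by
  by_contra hcon
  push Not at hcon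
  have : cutE r S = 0 := by
    unfold cutE
    refine Finset.sum_eq_zero fun v _ => Finset.sum_eq_zero fun e _ => ?_
    rw [if_neg]
    rintro ⟨h1, h2, h3⟩
    exact hcon v e h1 h2 h3
  omega

theorem nV_pos {S : Finset (V ⊕ E)} {v : V} (h : Sum.inl v ∈ S) : 1 ≤ nV S :=
  Finset.card_pos.2 ⟨v, by simp [h]⟩

theorem nE_pos {S : Finset (V ⊕ E)} {e : E} (h : Sum.inr e ∈ S) : 1 ≤ nE S :=
  Finset.card_pos.2 ⟨e, by simp [h]⟩

theorem pos_of_ne_empty {S : Finset (V ⊕ E)} (h : S ≠ ∅) : 1 ≤ nV S + nE S := by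
  obtain ⟨x, hx⟩ := Finset.nonempty_iff_ne_empty.2 h
  rcases x with v | e
  · have := nV_pos hx; omega
  · have := nE_pos hx; omega

theorem eq_of_nV_one {S : Finset (V ⊕ E)} {v w : V} (h : nV S ≤ 1) (hv : Sum.inl v ∈ S)
    (hw : Sum.inl w ∈ S) : v = w :=
  Finset.card_le_one.1 h v (by simp [hv]) w (by simp [hw])

/-- The number of elements of `V` with an edge that leaves `R`. -/
theorem card_leaving_le (R : Finset (V ⊕ E)) :
    (univ.filter (fun v : V => Sum.inl v ∈ R ∧ ∃ e, r v e ∧ Sum.inr e ∉ R)).card ≤ cutV r R := by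
  unfold cutV
  rw [Finset.card_filter]
  refine Finset.sum_le_sum fun v _ => ?_
  split_ifs with h
  · obtain ⟨h1, e, h2, h3⟩ := h
    calc 1 = if r v e ∧ Sum.inl v ∈ R ∧ Sum.inr e ∉ R then 1 else 0 := by simp [h1, h2, h3]
      _ ≤ _ := Finset.single_le_sum
          (f := fun e => if r v e ∧ Sum.inl v ∈ R ∧ Sum.inr e ∉ R then 1 else 0)
          (fun _ _ => Nat.zero_le _) (Finset.mem_univ e)
  · exact Nat.zero_le _

end Pool.Agent.K3h69.FTD
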