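import Pool.Agent.K3h69.FTD.Pair
import Pool.Agent.K3h69.FTD.Color

/-!
# Four transversals that cover every vertex twice

Every 3-regular 3-uniform hypergraph has four transversals such that every vertex is in exactly two
of them.
-/

set_option autoImplicit false
set_option linter.unusedSectionVars false

namespace Pool.Agent.K3h69.FTD

open Finset

section conn

variable {V E : Type} [Fintype V] [DecidableEq V] [Fintype E] [DecidableEq E]
variable {r : V → E → Prop} [DecidableRel r]

/-- If there is no obstruction for `(p, q)` then there is a colouring of the vertices other than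
`p` and `q` for which every hyperedge that does not contain `q` has both colours. -/
theorem exists_coloring (h : Cubic r) (hc : Conn r) {p q : V} (hpq : p ≠ q)
    (hW : ∀ W, ¬ Obs r W p q) :
    ∃ c : V → Bool, ∀ e, ¬ r q e →
      (∃ v, r v e ∧ v ≠ p ∧ c v = true) ∧ (∃ v, r v e ∧ v ≠ p ∧ c v = false) := by
  classical
  let N : E → Finset V := fun e => univ.filter (fun v => r v e ∧ v ≠ p)
  obtain ⟨c, hcc⟩ := two_color N (univ.filter (fun e => ¬ r q e)) (by
    intro F' hF' hne
    by_contra hcon
    push Not at hcon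
    let U : Finset V := insert p (F'.biUnion N)
    let W : Finset (V ⊕ E) := U.disjSum F'
    have hqe : ∀ e ∈ F', ¬ r q e := fun e he => (Finset.mem_filter.1 (hF' he)).2
    have hqU : q ∉ U := by
      intro hq
      rcases Finset.mem_insert.1 hq with h1 | h1
      · exact hpq h1.symm
      · obtain ⟨e, he, hqe'⟩ := Finset.mem_biUnion.1 h1
        exact hqe e he (Finset.mem_filter.1 hqe').2.1
    have hpN : p ∉ F'.biUnion N := by
      intro hp
      obtain ⟨e, he, hp'⟩ := Finset.mem_biUnion.1 hp
      exact (Finset.mem_filter.1 hp').2.2 rfl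
    have hnV : nV W = (F'.biUnion N).card + 1 := by
      have : (univ.filter (fun v : V => (Sum.inl v : V ⊕ E) ∈ W)) = U := by
        ext v; simp [W]
      unfold nV
      rw [this, Finset.card_insert_of_notMem hpN]
    have hnE : nE W = F'.card := by
      have : (univ.filter (fun e : E => (Sum.inr e : V ⊕ E) ∈ W)) = F' := by
        ext v; simp [W]
      unfold nE
      rw [this]
    have hcE : cutE r W = 0 := by
      by_contra h0
      obtain ⟨v, e, hve, hv, he⟩ := exists_of_cutE_pos r (Nat.one_le_iff_ne_zero.2 h0)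
      have he' : e ∈ F' := by simpa [W] using he
      apply hv
      simp only [W, Finset.inl_mem_disjSum, U, Finset.mem_insert, Finset.mem_biUnion]
      by_cases hvp : v = p
      · exact Or.inl hvp
      · exact Or.inr ⟨e, he', by simp [N, hve, hvp]⟩
    have hpW : Sum.inl p ∈ W := by simp [W, U]
    have hqW : Sum.inl q ∉ W := by simpa [W] using hqU
    have b1 := three_nV h W
    have b2 := three_nE h W
    have b3 := cut_eq r W
    have h2 : 2 ≤ cut r W := two_le_cut h hc (Finset.ne_empty_of_mem hpW) (fun hu => by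
      rw [hu] at hqW; exact hqW (Finset.mem_univ _))
    have hF1 : 1 ≤ F'.card := Finset.card_pos.2 hne
    exact hW W ⟨hcE, by omega, by omega, hpW, hqW⟩)
  refine ⟨c, fun e he => ?_⟩
  obtain ⟨⟨v, hv, hcv⟩, ⟨w, hw, hcw⟩⟩ := hcc e (by simp [he])
  simp only [N, Finset.mem_filter, Finset.mem_univ, true_and] at hv hw
  exact ⟨⟨v, hv.1, hv.2, hcv⟩, ⟨w, hw.1, hw.2, hcw⟩⟩

theorem four_conn (h : Cubic r) (hc : Conn r) (v0 : V) :
    ∃ T : Fin 4 → V → Prop, (∀ i e, ∃ v, T i v ∧ r v e) ∧
      ∀ v, ∃ i j, i ≠ j ∧ ∀ k, T k v ↔ (k = i ∨ k = j) := by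
  obtain ⟨p, q, hpq, h1, h2⟩ := exists_pair h hc v0
  obtain ⟨c, hc1⟩ := exists_coloring h hc hpq h1
  obtain ⟨d, hd1⟩ := exists_coloring h hc hpq.symm h2
  refine ⟨![fun v => v ≠ p ∧ (c v = true ∨ v = q), fun v => v ≠ p ∧ (c v = false ∨ v = q),
    fun v => v ≠ q ∧ (d v = true ∨ v = p), fun v => v ≠ q ∧ (d v = false ∨ v = p)], ?_, ?_⟩
  · intro i e
    fin_cases i
    · by_cases hq : r q e
      · exact ⟨q, ⟨hpq.symm, Or.inr rfl⟩, hq⟩
      · obtain ⟨v, h3, h4, h5⟩ := (hc1 e hq).1
        exact ⟨v, ⟨h4, Or.inl h5⟩, h3⟩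
    · by_cases hq : r q e
      · exact ⟨q, ⟨hpq.symm, Or.inr rfl⟩, hq⟩
      · obtain ⟨v, h3, h4, h5⟩ := (hc1 e hq).2
        exact ⟨v, ⟨h4, Or.inl h5⟩, h3⟩
    · by_cases hq : r p e
      · exact ⟨p, ⟨hpq, Or.inr rfl⟩, hq⟩
      · obtain ⟨v, h3, h4, h5⟩ := (hd1 e hq).1
        exact ⟨v, ⟨h4, Or.inl h5⟩, h3⟩
    · by_cases hq : r p e
      · exact ⟨p, ⟨hpq, Or.inr rfl⟩, hq⟩
      · obtain ⟨v, h3, h4, h5⟩ := (hd1 e hq).2
        exact ⟨v, ⟨h4, Or.inl h5⟩, h3⟩
  · intro v
    by_cases hvp : v = p
    · subst hvp
      refine ⟨2, 3, by decide, fun k => ?_⟩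
      fin_cases k <;> simp [hpq]
    by_cases hvq : v = q
    · subst hvq
      refine ⟨0, 1, by decide, fun k => ?_⟩
      fin_cases k <;> simp [hvp]
    refine ⟨if c v then 0 else 1, if d v then 2 else 3, ?_, ?_⟩
    · split_ifs <;> decide
    · intro k
      cases hcv : c v <;> cases hdv : d v <;> fin_cases k <;> simp [hvp, hvq, hcv, hdv]

end conn

/-- The general case, by induction on the number of vertices. -/
theorem four (n : ℕ) : ∀ (V E : Type) [Fintype V] [DecidableEq V] [Fintype E] [DecidableEq E]
    (r : V → E → Prop) [DecidableRel r], Cubic r → Fintype.card V ≤ n →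
    ∃ T : Fin 4 → V → Prop, (∀ i e, ∃ v, T i v ∧ r v e) ∧
      ∀ v, ∃ i j, i ≠ j ∧ ∀ k, T k v ↔ (k = i ∨ k = j) := by
  classical
  induction n with
  | zero =>
    intro V E _ _ _ _ r _ h hn
    have hV : IsEmpty V := Fintype.card_eq_zero_iff.1 (by omega)
    have hE : IsEmpty E := by
      refine ⟨fun e => ?_⟩
      have := h.right e
      rw [Finset.univ_eq_empty, Finset.filter_empty, Finset.card_empty] at this
      omega
    exact ⟨fun _ v => isEmptyElim v, fun _ e => isEmptyElim e, fun v => isEmptyElim v⟩
  | succ n ih =>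
    intro V E _ _ _ _ r _ h hn
    by_cases hc : Conn r
    · rcases isEmpty_or_nonempty V with hV | ⟨⟨v0⟩⟩
      · exact ih V E r h (by rw [Fintype.card_eq_zero]; omega)
      · exact four_conn h hc v0
    · -- split along a closed set
      unfold Conn at hc
      push Not at hc
      obtain ⟨S, hS0, hS1, hS2⟩ := hc
      have key : ∀ S : Finset (V ⊕ E), cut r S = 0 → S ≠ univ →
          ∃ T : Fin 4 → V → Prop, (∀ i e, Sum.inr e ∈ S → ∃ v, T i v ∧ r v e) ∧
            (∀ i v, T i v → Sum.inl v ∈ S) ∧
            ∀ v, Sum.inl v ∈ S → ∃ i j, i ≠ j ∧ ∀ k, T k v ↔ (k = i ∨ k = j) := by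
        intro S hS0 hS2
        have hz : ∀ v e, r v e → (Sum.inl v ∈ S ↔ Sum.inr e ∈ S) := by
          intro v e hve
          by_contra hcon
          have h3 := cut_eq r S
          by_cases h1 : Sum.inl v ∈ S <;> by_cases h2 : Sum.inr e ∈ S
          · simp [h1, h2] at hcon
          · have := cutV_pos_of r hve h1 h2
            omega
          · have := cutE_pos_of r hve h1 h2
            omega
          · simp [h1, h2] at hcon
        let V1 := {v : V // Sum.inl v ∈ S}
        let E1 := {e : E // Sum.inr e ∈ S}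
        let r1 : V1 → E1 → Prop := fun v e => r v.1 e.1
        have hcub : Cubic r1 := by
          constructor
          · intro v
            rw [← h.left v.1, ← Finset.card_map (Function.Embedding.subtype _)]
            congr 1
            ext e
            simp only [r1, Finset.mem_map, Finset.mem_filter, Finset.mem_univ, true_and,
              Function.Embedding.coe_subtype]
            constructor
            · rintro ⟨a, ha, rfl⟩
              exact ha
            · intro he
              exact ⟨⟨e, (hz v.1 e he).1 v.2⟩, he, rfl⟩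
          · intro e
            rw [← h.right e.1, ← Finset.card_map (Function.Embedding.subtype _)]
            congr 1
            ext v
            simp only [r1, Finset.mem_map, Finset.mem_filter, Finset.mem_univ, true_and,
              Function.Embedding.coe_subtype]
            constructor
            · rintro ⟨a, ha, rfl⟩
              exact ha
            · intro he
              exact ⟨⟨v, (hz v e.1 he).2 e.2⟩, he, rfl⟩
        have hlt : Fintype.card V1 ≤ n := by
          have : Fintype.card V1 < Fintype.card V := by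
            -- some vertex is not in S
            have hcompl : Sᶜ ≠ ∅ := by
              intro h0
              apply hS2
              rw [← compl_compl S, h0, Finset.compl_empty]
            have hp := pos_of_ne_empty hcompl
            have b1 := three_nV h Sᶜ
            have b2 := three_nE h Sᶜ
            have b3 := cut_eq r Sᶜ
            rw [cut_compl] at b3
            have hpos : 1 ≤ nV Sᶜ := by omega
            obtain ⟨v, hv⟩ := Finset.card_pos.1 hpos
            simp only [Finset.mem_filter, Finset.mem_univ, true_and, Finset.mem_compl] at hv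
            exact Fintype.card_subtype_lt hv
          omega
        obtain ⟨T, hT1, hT2⟩ := ih V1 E1 r1 hcub hlt
        refine ⟨fun i v => ∃ hv : Sum.inl v ∈ S, T i ⟨v, hv⟩, ?_, ?_, ?_⟩
        · intro i e he
          obtain ⟨v, hv1, hv2⟩ := hT1 i ⟨e, he⟩
          exact ⟨v.1, ⟨v.2, hv1⟩, hv2⟩
        · rintro i v ⟨hv, -⟩
          exact hv
        · intro v hv
          obtain ⟨i, j, hij, hk⟩ := hT2 ⟨v, hv⟩
          refine ⟨i, j, hij, fun k => ?_⟩
          rw [← hk k]
          exact ⟨fun ⟨_, h⟩ => h, fun h => ⟨hv, h⟩⟩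
      obtain ⟨T1, a1, a2, a3⟩ := key S hS0 hS2
      obtain ⟨T2, b1, b2, b3⟩ := key Sᶜ (by rw [cut_compl]; exact hS0) (by
        intro h0
        apply hS1.ne_empty
        rw [← compl_compl S, h0, Finset.compl_univ])
      refine ⟨fun i v => T1 i v ∨ T2 i v, ?_, ?_⟩
      · intro i e
        by_cases he : Sum.inr e ∈ S
        · obtain ⟨v, hv1, hv2⟩ := a1 i e he
          exact ⟨v, Or.inl hv1, hv2⟩
        · obtain ⟨v, hv1, hv2⟩ := b1 i e (Finset.mem_compl.2 he)
          exact ⟨v, Or.inr hv1, hv2⟩
      · intro v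
        by_cases hv : Sum.inl v ∈ S
        · obtain ⟨i, j, hij, hk⟩ := a3 v hv
          refine ⟨i, j, hij, fun k => ?_⟩
          rw [← hk k]
          exact ⟨fun h => h.resolve_right fun h2 => (Finset.mem_compl.1 (b2 k v h2)) hv, Or.inl⟩
        · obtain ⟨i, j, hij, hk⟩ := b3 v (Finset.mem_compl.2 hv)
          refine ⟨i, j, hij, fun k => ?_⟩
          rw [← hk k]
          exact ⟨fun h => h.resolve_left fun h2 => hv (a2 k v h2), Or.inr⟩

end Pool.Agent.K3h69.FTD
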