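import Pool.Agent.K3h69.FTD.Cut

/-!
# A pair of vertices which is not separated by a nontrivial cut with three edges
-/

set_option autoImplicit false
set_option linter.unusedSectionVars false

namespace Pool.Agent.K3h69.FTD

open Finset

variable {V E : Type} [Fintype V] [DecidableEq V] [Fintype E] [DecidableEq E]
variable {r : V → E → Prop} [DecidableRel r]

/-- The bipartite graph is connected. -/
def Conn (r : V → E → Prop) [DecidableRel r] : Prop :=
  ∀ S : Finset (V ⊕ E), cut r S = 0 → S = ∅ ∨ S = univ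

theorem two_le_cut (h : Cubic r) (hc : Conn r) {S : Finset (V ⊕ E)} (h1 : S ≠ ∅)
    (h2 : S ≠ univ) : 2 ≤ cut r S := by
  have hb1 := three_nV h S
  have hb2 := three_nE h S
  have hb3 := cut_eq r S
  have h0 : cut r S ≠ 0 := fun h0 => (hc S h0).elim h1 h2
  omega

theorem type_two (h : Cubic r) {S : Finset (V ⊕ E)} (h2 : cut r S ≤ 2) :
    cutV r S ≤ 1 ∧ cutV r S = cutE r S ∧ nV S = nE S := by
  have hb1 := three_nV h S
  have hb2 := three_nE h S
  have hb3 := cut_eq r S
  have h3 : cutV r S ≤ 2 := by omega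
  have h4 : cutE r S ≤ 2 := by omega
  generalize cutV r S = x at *
  generalize cutE r S = y at *
  interval_cases x <;> interval_cases y <;> omega

theorem type_three (h : Cubic r) {S : Finset (V ⊕ E)} (h2 : cut r S = 3) :
    (cutV r S = 3 ∧ cutE r S = 0 ∧ nV S = nE S + 1) ∨
      (cutV r S = 0 ∧ cutE r S = 3 ∧ nE S = nV S + 1) := by
  have hb1 := three_nV h S
  have hb2 := three_nE h S
  have hb3 := cut_eq r S
  have h3 : cutV r S ≤ 3 := by omega
  have h4 : cutE r S ≤ 3 := by omega
  generalize cutV r S = x at *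
  generalize cutE r S = y at *
  interval_cases x <;> interval_cases y <;> omega

theorem type_four (h : Cubic r) {S : Finset (V ⊕ E)} (h2 : cut r S = 4) :
    cutV r S = 2 ∧ cutE r S = 2 ∧ nV S = nE S := by
  have hb1 := three_nV h S
  have hb2 := three_nE h S
  have hb3 := cut_eq r S
  have h3 : cutV r S ≤ 4 := by omega
  have h4 : cutE r S ≤ 4 := by omega
  generalize cutV r S = x at *
  generalize cutE r S = y at *
  interval_cases x <;> interval_cases y <;> omega

/-- Numerical facts on small cuts. -/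
theorem num_two (h : Cubic r) {S : Finset (V ⊕ E)} (h1 : S ≠ ∅) (h2 : cut r S ≤ 2) :
    3 ≤ nV S := by
  have hb1 := three_nV h S
  have hb2 := three_nE h S
  have hb3 := cut_eq r S
  have hb4 := ins_le r S
  have hb5 := pos_of_ne_empty h1
  have he : nV S = nE S := by omega
  by_contra hcon
  have h3 : nV S = 0 ∨ nV S = 1 ∨ nV S = 2 := by omega
  rw [← he] at hb4 hb5
  rcases h3 with h3 | h3 | h3
  · omega
  · rw [h3] at hb4 hb1; omega
  · rw [h3] at hb4 hb1; omega

/-- `W` is an obstruction for the ordered pair `(p, q)`. -/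
structure Obs (r : V → E → Prop) [DecidableRel r] (W : Finset (V ⊕ E)) (p q : V) : Prop where
  cE : cutE r W = 0
  cV : cutV r W = 3
  pos : 1 ≤ nE W
  mem : Sum.inl p ∈ W
  nmem : Sum.inl q ∉ W

theorem claimA (h : Cubic r) (hc : Conn r) {R S : Finset (V ⊕ E)}
    (hR2 : cut r R ≤ 2)
    (hRmin : ∀ R', R' ⊆ R → cut r R' ≤ 2 → 2 ≤ nV R' → R' = R)
    (hSR : S ⊆ R) (hS3 : cut r S ≤ 3)
    (hSmin : ∀ S', S' ⊆ S → cut r S' ≤ 3 → 2 ≤ nV S' → S' = S)
    {W : Finset (V ⊕ E)} {p q : V} (hp : Sum.inl p ∈ S) (hq : Sum.inl q ∈ S)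
    (hW : Obs r W p q) : ∃ e, r p e ∧ Sum.inr e ∉ R := by
  obtain ⟨hE, hV, hpos, hpW, hqW⟩ := hW
  have hcutW : cut r W = 3 := by rw [cut_eq]; omega
  have bW1 := three_nV h W
  have bW2 := three_nE h W
  have hnW : nV W = nE W + 1 := by omega
  -- W is not contained in S
  have hWS : ¬ W ⊆ S := by
    intro hsub
    have := hSmin W hsub (by omega) (by omega)
    exact hqW (this ▸ hq)
  have hWc : ¬ Wᶜ ⊆ S := by
    intro hsub
    have b1 := three_nV h Wᶜ
    have b2 := three_nE h Wᶜ
    have b3 := ins_le r Wᶜ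
    rw [cutV_compl, hE] at b1
    rw [cutE_compl, hV] at b2
    have hq1 : 1 ≤ nV Wᶜ := nV_pos (v := q) (by simpa using hqW)
    have hge : 2 ≤ nV Wᶜ := by
      by_contra hcon
      have h1 : nV Wᶜ = 1 := by omega
      rw [h1] at b1 b3
      omega
    have := hSmin Wᶜ hsub (by rw [cut_compl]; omega) hge
    have hp' : Sum.inl p ∈ Wᶜ := this ▸ hp
    simp [hpW] at hp'
  -- the four corners
  have hpSW : Sum.inl p ∈ S ∩ W := Finset.mem_inter.2 ⟨hp, hpW⟩
  have hqSW : Sum.inl q ∈ S \ W := Finset.mem_sdiff.2 ⟨hq, hqW⟩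
  have c1 : 2 ≤ cut r (S ∩ W) := two_le_cut h hc (Finset.ne_empty_of_mem hpSW) (by
    intro hu
    have : Sum.inl q ∈ S ∩ W := hu ▸ Finset.mem_univ _
    exact hqW (Finset.mem_inter.1 this).2)
  have c2 : 2 ≤ cut r (S ∪ W) := two_le_cut h hc
    (Finset.ne_empty_of_mem (Finset.mem_union_left _ hp)) (by
    intro hu
    apply hWc
    intro x hx
    have : x ∈ S ∪ W := hu ▸ Finset.mem_univ _
    rcases Finset.mem_union.1 this with h1 | h1
    · exact h1
    · exact absurd h1 (Finset.mem_compl.1 hx))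
  have c3 : 2 ≤ cut r (S \ W) := two_le_cut h hc (Finset.ne_empty_of_mem hqSW) (by
    intro hu
    have : Sum.inl p ∈ S \ W := hu ▸ Finset.mem_univ _
    exact (Finset.mem_sdiff.1 this).2 hpW)
  have c4 : 2 ≤ cut r (W \ S) := two_le_cut h hc (by
    intro hu
    exact hWS (Finset.sdiff_eq_empty_iff_subset.1 hu)) (by
    intro hu
    have : Sum.inl p ∈ W \ S := hu ▸ Finset.mem_univ _
    exact (Finset.mem_sdiff.1 this).2 hp)
  have s1 := submod r S W
  have s2 := posimod r S W
  have m1 : cut r (S ∩ W) ≤ 3 → nV (S ∩ W) ≤ 1 := by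
    intro h3
    by_contra hcon
    have := hSmin (S ∩ W) Finset.inter_subset_left h3 (by omega)
    exact hqW (Finset.mem_inter.1 (this.symm ▸ hq : Sum.inl q ∈ S ∩ W)).2
  have m2 : cut r (S \ W) ≤ 3 → nV (S \ W) ≤ 1 := by
    intro h3
    by_contra hcon
    have := hSmin (S \ W) Finset.sdiff_subset h3 (by omega)
    exact (Finset.mem_sdiff.1 (this.symm ▸ hp : Sum.inl p ∈ S \ W)).2 hpW
  have n1 := nV_split S W
  have n2 := nE_split S W
  have p1 := nV_pos hpSW
  have q1 := nV_pos hqSW
  have hSne : S ≠ ∅ := Finset.ne_empty_of_mem hp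
  have hS : cut r S = 3 := by
    by_contra hcon
    have h2 : cut r S ≤ 2 := by omega
    have := num_two h hSne h2
    have := m1 (by omega)
    have := m2 (by omega)
    omega
  -- balances
  have bS1 := three_nV h S
  have bS2 := three_nE h S
  have bS3 := cut_eq r S
  have bI1 := three_nV h (S ∩ W)
  have bI2 := three_nE h (S ∩ W)
  have bI3 := cut_eq r (S ∩ W)
  have bI4 := ins_le r (S ∩ W)
  have bD1 := three_nV h (S \ W)
  have bD2 := three_nE h (S \ W)
  have bD3 := cut_eq r (S \ W)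
  have bD4 := ins_le r (S \ W)
  have bQ1 := three_nV h (W \ S)
  have bQ2 := three_nE h (W \ S)
  have bQ3 := cut_eq r (W \ S)
  have bU1 := three_nV h (S ∪ W)
  have bU2 := three_nE h (S ∪ W)
  have bU3 := cut_eq r (S ∪ W)
  have u1 := nV_union S W
  have u2 := nE_union S W
  -- the first part has just one element of V
  have hI1 : nV (S ∩ W) = 1 := by
    by_contra hcon
    have hI : 2 ≤ nV (S ∩ W) := by omega
    have hI4 : cut r (S ∩ W) = 4 := by
      by_contra h4
      have := m1 (by omega)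
      omega
    have t1 := type_four h hI4
    have t2 := type_three h hS
    have hD34 : cut r (S \ W) = 3 ∨ cut r (S \ W) = 4 ∨ cut r (S \ W) ≤ 2 := by omega
    have hD : cut r (S \ W) = 3 := by
      rcases hD34 with h5 | h5 | h5
      · exact h5
      · have t3 := type_four h h5
        omega
      · have t3 := type_two h h5
        omega
    have hD1 : nV (S \ W) = 1 := by
      have := m2 (by omega)
      omega
    rw [hD1] at bD4
    have t3 := type_three h hD
    have hDE : nE (S \ W) = 0 := by omega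
    have hU2 : cut r (S ∪ W) ≤ 2 := by omega
    have t4 := type_two h hU2
    omega
  have hD2 : 2 ≤ nV (S \ W) := by
    by_contra hcon
    have hD : nV (S \ W) = 1 := by omega
    rw [hD] at bD4
    rw [hI1] at bI4
    have bS4 := ins_le r S
    have hS2 : nV S = 2 := by omega
    rw [hS2] at bS4
    have t3 := type_three h hS
    have hx : nE (S ∩ W) ≤ 1 := by omega
    have hy : nE (S \ W) ≤ 1 := by omega
    omega
  have hD4 : cut r (S \ W) = 4 := by
    by_contra h4
    have := m2 (by omega)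
    omega
  have hQ : cut r (W \ S) = 2 := by omega
  have hQt := type_two h hQ.le
  have hQE : 1 ≤ cutE r (W \ S) := by omega
  obtain ⟨v, e, hve, hvQ, heQ⟩ := exists_of_cutE_pos r hQE
  have heW : Sum.inr e ∈ W := (Finset.mem_sdiff.1 heQ).1
  have hvW : Sum.inl v ∈ W := by
    by_contra hcon
    have := cutE_pos_of r hve hcon heW
    omega
  have hvS : Sum.inl v ∈ S := by
    by_contra hcon
    exact hvQ (Finset.mem_sdiff.2 ⟨hvW, hcon⟩)
  have hvp : v = p := eq_of_nV_one hI1.le (Finset.mem_inter.2 ⟨hvS, hvW⟩) hpSW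
  subst hvp
  refine ⟨e, hve, fun heR => ?_⟩
  -- crossing of Q and R
  have hpR : Sum.inl v ∈ R := hSR hp
  have s3 := submod r (W \ S) R
  have heQR : Sum.inr e ∈ (W \ S) ∩ R := Finset.mem_inter.2 ⟨heQ, heR⟩
  by_cases hu : (W \ S) ∪ R = univ
  · have hsub : (W \ S)ᶜ ⊆ R := by
      intro x hx
      have : x ∈ (W \ S) ∪ R := hu ▸ Finset.mem_univ _
      rcases Finset.mem_union.1 this with h1 | h1
      · exact absurd h1 (Finset.mem_compl.1 hx)
      · exact h1
    have hcut : cut r (W \ S)ᶜ = 2 := by rw [cut_compl, hQ]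
    have hne : (W \ S)ᶜ ≠ ∅ := by
      apply Finset.ne_empty_of_mem (a := Sum.inl v)
      rw [Finset.mem_compl]
      exact hvQ
    have h3 := num_two h hne (by omega)
    have := hRmin _ hsub (by omega) (by omega)
    rw [← this] at heR
    exact (Finset.mem_compl.1 heR) heQ
  · have c5 : 2 ≤ cut r ((W \ S) ∪ R) :=
      two_le_cut h hc (Finset.ne_empty_of_mem (Finset.mem_union_left _ heQ)) hu
    have hne : (W \ S) ∩ R ≠ ∅ := Finset.ne_empty_of_mem heQR
    have hcut : cut r ((W \ S) ∩ R) ≤ 2 := by omega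
    have h3 := num_two h hne hcut
    have := hRmin _ Finset.inter_subset_right hcut (by omega)
    rw [← this] at hpR
    exact hvQ (Finset.mem_inter.1 hpR).1

/-- In a connected cubic bipartite graph some two vertices of one part are not separated. -/
theorem exists_pair (h : Cubic r) (hc : Conn r) (v0 : V) :
    ∃ p q : V, p ≠ q ∧ (∀ W, ¬ Obs r W p q) ∧ ∀ W, ¬ Obs r W q p := by
  classical
  have huniv : cut r (univ : Finset (V ⊕ E)) = 0 := by
    unfold cut; simp
  have hun : (univ : Finset (V ⊕ E)) ≠ ∅ := Finset.ne_empty_of_mem (Finset.mem_univ (Sum.inl v0))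
  have hun3 : 3 ≤ nV (univ : Finset (V ⊕ E)) := num_two h hun (by omega)
  obtain ⟨R, hR, hRm⟩ := Finset.exists_min_image
    ((univ : Finset (Finset (V ⊕ E))).filter (fun R => cut r R ≤ 2 ∧ 2 ≤ nV R)) Finset.card
    ⟨univ, by simp only [Finset.mem_filter, Finset.mem_univ, true_and]; omega⟩
  simp only [Finset.mem_filter, Finset.mem_univ, true_and] at hR hRm
  have hRmin : ∀ R', R' ⊆ R → cut r R' ≤ 2 → 2 ≤ nV R' → R' = R := fun R' h1 h2 h3 =>
    Finset.eq_of_subset_of_card_le h1 (hRm R' ⟨h2, h3⟩)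
  obtain ⟨S, hS, hSm⟩ := Finset.exists_min_image
    ((univ : Finset (Finset (V ⊕ E))).filter (fun S => S ⊆ R ∧ cut r S ≤ 3 ∧ 2 ≤ nV S))
    Finset.card
    ⟨R, by simp only [Finset.mem_filter, Finset.mem_univ, true_and]
           exact ⟨Finset.Subset.refl _, by omega, hR.2⟩⟩
  simp only [Finset.mem_filter, Finset.mem_univ, true_and] at hS hSm
  have hSmin : ∀ S', S' ⊆ S → cut r S' ≤ 3 → 2 ≤ nV S' → S' = S := fun S' h1 h2 h3 =>
    Finset.eq_of_subset_of_card_le h1 (hSm S' ⟨h1.trans hS.1, h2, h3⟩)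
  have key : ∀ p q, Sum.inl p ∈ S → Sum.inl q ∈ S →
      ¬ (∃ e, r p e ∧ Sum.inr e ∉ R) → ∀ W, ¬ Obs r W p q := by
    intro p q hp hq hn W hW
    exact hn (claimA h hc hR.1 hRmin hS.1 hS.2.1 hSmin hp hq hW)
  -- good vertices
  let G : Finset V := univ.filter (fun v => Sum.inl v ∈ S ∧ ¬ ∃ e, r v e ∧ Sum.inr e ∉ R)
  let B : Finset V := univ.filter (fun v => Sum.inl v ∈ S ∧ ∃ e, r v e ∧ Sum.inr e ∉ R)
  have hGB : G.card + B.card = nV S := by
    have := Finset.card_filter_add_card_filter_not (s := univ.filter (fun v : V => (Sum.inl v : V ⊕ E) ∈ S))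
      (fun v => ∃ e, r v e ∧ Sum.inr e ∉ R)
    rw [Finset.filter_filter, Finset.filter_filter] at this
    unfold nV
    rw [← this, add_comm]
  have hBR : B.card ≤ cutV r R := by
    refine le_trans (Finset.card_le_card ?_) (card_leaving_le r R)
    intro v hv
    simp only [B, Finset.mem_filter, Finset.mem_univ, true_and] at hv ⊢
    exact ⟨hS.1 hv.1, hv.2⟩
  have hBS : B.card ≤ cutV r S := by
    refine le_trans (Finset.card_le_card ?_) (card_leaving_le r S)
    intro v hv
    simp only [B, Finset.mem_filter, Finset.mem_univ, true_and] at hv ⊢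
    obtain ⟨h1, e, h2, h3⟩ := hv
    exact ⟨h1, e, h2, fun h4 => h3 (hS.1 h4)⟩
  have hG2 : 1 < G.card := by
    have bR1 := three_nV h R
    have bR2 := three_nE h R
    have bR3 := cut_eq r R
    have bS1 := three_nV h S
    have bS2 := three_nE h S
    have bS3 := cut_eq r S
    have bS4 := ins_le r S
    have tR := type_two h hR.1
    by_cases h3 : 3 ≤ nV S
    · omega
    · have h2 : nV S = 2 := by omega
      rw [h2] at bS4
      have hS2 : ¬ cut r S ≤ 2 := by
        intro h4
        have t4 := type_two h h4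
        omega
      have t3 := type_three h (show cut r S = 3 by omega)
      omega
  obtain ⟨p, hp, q, hq, hpq⟩ := Finset.one_lt_card.1 hG2
  simp only [G, Finset.mem_filter, Finset.mem_univ, true_and] at hp hq
  exact ⟨p, q, hpq, key p q hp.1 hq.1 hp.2, key q p hq.1 hp.1 hq.2⟩

end Pool.Agent.K3h69.FTD
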